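import Pool.Agent.L7h52.NQ.Stm
import Pool.Agent.TH603.EL.Lead0

/-! Project NQ (helper52), part ASM: the leading form of a form of degree `d` along the tube. -/

namespace Pool.Agent.L7h47.NQ

open MvPolynomial Pool.Agent.TH603.EL Pool.Agent.L7h52.NQ

theorem charZero_HK (F : Type) [Field F] [CharZero F] : CharZero (HK F) :=
  charZero_of_injective_ringHom (f := (HahnSeries.C : F →+* HK F)) HahnSeries.C_injective

theorem cf_add {F : Type} [Field F] (x y : HR F) (a : ℝ) (i j : ℤ) :
    cf (x + y) a i j = cf x a i j + cf y a i j := by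
  simp [cf]

theorem cf_low {F : Type} [Field F] {x : HR F} {b a : ℝ} (h : Low x b) (ha : a < b) (i j : ℤ) :
    cf x a i j = 0 := by
  unfold cf
  rw [h a ha]
  rfl

theorem exists_cf {F : Type} [Field F] {x : HR F} {a : ℝ} (h : x.coeff a ≠ 0) :
    ∃ i j : ℤ, cf x a i j ≠ 0 := by
  by_contra hc
  push Not at hc
  apply h
  ext ⟨i, j⟩
  exact hc i j

/-- the leading form of a product with the quartic of the tube -/
theorem mul_Ct {F : Type} [Field F] [CharZero F] {x H : HR F} {c s : ℝ} (hx : Low x c)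
    (hx0 : x.coeff c ≠ 0) (hH : Low H s)
    (hH2 : ∀ i j : ℤ, cf H s i j = if i = 0 ∧ j = 1 then 6561 else 0) :
    Low (H * x) (s + c) ∧ (∃ i j : ℤ, cf (H * x) (s + c) i j ≠ 0) ∧
      ∀ i j : ℤ, cf (H * x) (s + c) i j = 6561 * cf x c i (j - 1) := by
  have hs : H.coeff s = AddMonoidAlgebra.single ((0 : ℤ), (1 : ℤ)) (6561 : F) := by
    ext ⟨i, j⟩
    have h1 := hH2 i j
    unfold cf at h1
    rw [h1]
    by_cases h : i = 0 ∧ j = 1
    · rw [if_pos h, h.1, h.2]
      simp
    · rw [if_neg h]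
      have h2 : ¬ ((0 : ℤ), (1 : ℤ)) = (i, j) := by
        intro h3
        apply h
        exact ⟨(congrArg Prod.fst h3).symm, (congrArg Prod.snd h3).symm⟩
      simp [h2]
  have hcf : ∀ i j : ℤ, cf (H * x) (s + c) i j = 6561 * cf x c i (j - 1) := by
    intro i j
    unfold cf
    rw [Lead.lcoeff_mul hH hx, hs, AddMonoidAlgebra.coeff_single_mul_apply]
    congr 2
    ext <;> simp [sub_eq_add_neg, add_comm]
  refine ⟨Lead.lmul hH hx, ?_, hcf⟩
  obtain ⟨i, j, hij⟩ := exists_cf hx0
  refine ⟨i, j + 1, ?_⟩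
  rw [hcf, add_sub_cancel_right]
  exact mul_ne_zero (by norm_num) hij

theorem E4_zero {τ : ℝ} {d : ℕ} {i : ℤ} (h1 : -(τ * hh d) ≤ i) (h2 : (i : ℝ) ≤ (1 - τ) * hh d) :
    ((i, 0) : ℤ × ℤ) ∈ E4 τ d := by
  refine ⟨le_rfl, by simp, ?_, ?_⟩
  · simpa using h1
  · simpa using h2

theorem E4_shift {τ : ℝ} {d : ℕ} (hd : 4 ≤ d) {i j : ℤ}
    (h : ((i, j - 1) : ℤ × ℤ) ∈ E4 τ (d - 4)) : ((i, j) : ℤ × ℤ) ∈ E4 τ d ∧ 1 ≤ j := by
  obtain ⟨h1, h2, h3, h4⟩ := h
  simp only at h1 h2 h3 h4
  have hj : 1 ≤ j := by linarith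
  have hcast : ((d - 4 : ℕ) : ℤ) = (d : ℤ) - 4 := by
    rw [Nat.cast_sub hd]
    rfl
  rw [hcast] at h2
  have he : d - 4 - 4 * (j - 1).toNat = d - 4 * j.toNat := by omega
  rw [he] at h3 h4
  refine ⟨⟨by simp only; linarith, by simp only; linarith, h3, h4⟩, hj⟩

theorem s_ASM (h1 : S_DEC) (h2 : S_LEAD) (h3 : S_CEV) : S_ASM := by
  intro F _ _ τ s n d v f hτ0 hτ1 hs hsn hv
  have hcz : CharZero (HK F) := charZero_HK F
  have hs1 : 1 < s := by
    have : (0 : ℝ) ≤ d := Nat.cast_nonneg d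
    linarith
  obtain ⟨hC1, hC2⟩ := h3 F τ s n v hτ0 hτ1 hs1 hsn hv
  revert hs f
  induction d using Nat.strong_induction_on with
  | _ d ih =>
    intro f hs hf hne
    obtain ⟨f0, f1, hff, hf0, hr0, hf1, hf1z⟩ :=
      h1 (HK F) (HahnSeries.single 1 1) d f hf
    have hev : ev (tubeU τ s v) f =
        ev (tubeU τ s v) f0 + ev (tubeU τ s v) (Ct F) * ev (tubeU τ s v) f1 := by
      conv_lhs => rw [hff]
      rw [map_add, map_mul]
      rfl
    by_cases hz1 : f1 = 0
    · -- only the reduced form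
      have hff0 : f = f0 := by rw [hff, hz1, mul_zero, add_zero]
      have hne0 : f0 ≠ 0 := by rw [← hff0]; exact hne
      obtain ⟨r, hr1, hr2, hr3⟩ := h2 F τ s d f0 v hτ0 hτ1 hs hv.1 hf0 hr0 hne0
      rw [hff0]
      refine ⟨r, hr1, hr2, ?_⟩
      intro i j hij
      obtain ⟨hj, hi1, hi2⟩ := hr3 i j hij
      rw [hj]
      exact E4_zero hi1 hi2
    · have hd : 4 ≤ d := by
        by_contra hd
        exact hz1 (hf1z (by omega))
      have hs' : 4 * ((d - 4 : ℕ) : ℝ) + 1 < s := by
        have : ((d - 4 : ℕ) : ℝ) ≤ d := by exact_mod_cast Nat.sub_le _ _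
        linarith
      obtain ⟨a1, ha1, ha2, ha3⟩ := ih (d - 4) (by omega) f1 hs' hf1 hz1
      obtain ⟨hm1, hm2, hm3⟩ := mul_Ct ha1 ha2 hC1 hC2
      obtain ⟨a2, ha2'⟩ : ∃ a2, a2 = s + a1 := ⟨_, rfl⟩
      rw [← ha2'] at hm1 hm2 hm3
      have hm4 : ∀ i j : ℤ, cf (ev (tubeU τ s v) (Ct F) * ev (tubeU τ s v) f1) a2 i j ≠ 0 →
          ((i, j) : ℤ × ℤ) ∈ E4 τ d ∧ 1 ≤ j := by
        intro i j hij
        rw [hm3] at hij
        exact E4_shift hd (ha3 i (j - 1) (right_ne_zero_of_mul hij))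
      by_cases hz0 : f0 = 0
      · rw [hz0, map_zero, zero_add] at hev
        rw [hev]
        refine ⟨a2, hm1, ?_, fun i j hij => (hm4 i j hij).1⟩
        obtain ⟨i, j, hij⟩ := hm2
        intro h
        apply hij
        unfold cf
        rw [h]
        rfl
      · obtain ⟨r, hr1, hr2, hr3⟩ := h2 F τ s d f0 v hτ0 hτ1 hs hv.1 hf0 hr0 hz0
        rw [hev]
        have hsup : ∀ a : ℝ, a ≤ r → a ≤ a2 → ∀ i j : ℤ,
            cf (ev (tubeU τ s v) f0 + ev (tubeU τ s v) (Ct F) * ev (tubeU τ s v) f1) a i j ≠ 0 →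
            ((i, j) : ℤ × ℤ) ∈ E4 τ d := by
          intro a har haa i j hij
          rw [cf_add] at hij
          by_cases hA : cf (ev (tubeU τ s v) f0) a i j = 0
          · rw [hA, zero_add] at hij
            rcases lt_or_eq_of_le haa with h | h
            · exact absurd (cf_low hm1 h i j) hij
            · rw [h] at hij
              exact (hm4 i j hij).1
          · rcases lt_or_eq_of_le har with h | h
            · exact absurd (cf_low hr1 h i j) hA
            · rw [h] at hA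
              obtain ⟨hj, hi1, hi2⟩ := hr3 i j hA
              rw [hj]
              exact E4_zero hi1 hi2
        have hlow : ∀ a : ℝ, a ≤ r → a ≤ a2 →
            Low (ev (tubeU τ s v) f0 + ev (tubeU τ s v) (Ct F) * ev (tubeU τ s v) f1) a := by
          intro a har haa b hb
          rw [HahnSeries.coeff_add, hr1 b (by linarith), hm1 b (by linarith), add_zero]
        rcases le_or_gt r a2 with hle | hlt
        · refine ⟨r, hlow r le_rfl hle, ?_, hsup r le_rfl hle⟩
          obtain ⟨i, j, hij⟩ := exists_cf hr2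
          have hj := (hr3 i j hij).1
          intro h
          have h5 : cf (ev (tubeU τ s v) f0 + ev (tubeU τ s v) (Ct F) * ev (tubeU τ s v) f1) r i j
              = 0 := by
            unfold cf
            rw [h]
            rfl
          rw [cf_add] at h5
          have h6 : cf (ev (tubeU τ s v) (Ct F) * ev (tubeU τ s v) f1) r i j = 0 := by
            rcases lt_or_eq_of_le hle with h7 | h7
            · exact cf_low hm1 h7 i j
            · by_contra h8
              rw [h7] at h8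
              have := (hm4 i j h8).2
              omega
          rw [h6, add_zero] at h5
          exact hij h5
        · refine ⟨a2, hlow a2 hlt.le le_rfl, ?_, hsup a2 hlt.le le_rfl⟩
          obtain ⟨i, j, hij⟩ := hm2
          intro h
          have h5 : cf (ev (tubeU τ s v) f0 + ev (tubeU τ s v) (Ct F) * ev (tubeU τ s v) f1) a2 i j
              = 0 := by
            unfold cf
            rw [h]
            rfl
          rw [cf_add, cf_low hr1 hlt, zero_add] at h5
          exact hij h5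

end Pool.Agent.L7h47.NQ
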